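import Mathlib
import Pool.Agent.Results.MP_f264ea_lc.Groups
import Pool.Agent.Results.MP_f264ea_lc.Rings

/-!
# Structures which are residually in a class of finite structures

For every signature `L` and every class `K` of finite `L`-structures, the class of the
`L`-structures any two distinct points of which are separated by a homomorphism into (or onto) a
member of `K` is axiomatized by one sentence of the infinitary logic in which conjunctions and
disjunctions are infinite but only one variable is quantified at a time; for a countable signature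
and countably many (isomorphism types of) members of `K` the conjunctions and disjunctions are
countable.  In particular residually finite rings and residually finite groups are axiomatized by
one sentence of the smallest infinitary logic, with countable conjunctions and disjunctions.
-/

universe u

namespace Pool.Agent.Results.MP_f264ea_lc.ResiduallyK

open FirstOrder

/-- Formulas over the signature `L` with free variables indexed by `Fin n`.  Conjunctions and
disjunctions are over arbitrary index types; quantifiers bind one variable. -/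
inductive Formula (L : FirstOrder.Language.{0, 0}) : ℕ → Type 1
  | equal {n : ℕ} (s t : L.Term (Fin n)) : Formula L n
  | rel {n k : ℕ} (R : L.Relations k) (ts : Fin k → L.Term (Fin n)) : Formula L n
  | neg {n : ℕ} (φ : Formula L n) : Formula L n
  | conj {n : ℕ} (ι : Type) (φ : ι → Formula L n) : Formula L n
  | disj {n : ℕ} (ι : Type) (φ : ι → Formula L n) : Formula L n
  | all {n : ℕ} (φ : Formula L (n + 1)) : Formula L n
  | ex {n : ℕ} (φ : Formula L (n + 1)) : Formula L n

/-- Truth of a formula in a structure `M` under an assignment of its free variables. -/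
def Formula.Holds {L : FirstOrder.Language.{0, 0}} (M : Type u) [L.Structure M] :
    {n : ℕ} → Formula L n → (Fin n → M) → Prop
  | _, .equal s t, v => s.realize v = t.realize v
  | _, .rel R ts, v => Language.Structure.RelMap R (fun i => (ts i).realize v)
  | _, .neg φ, v => ¬ φ.Holds M v
  | _, .conj _ φ, v => ∀ i, (φ i).Holds M v
  | _, .disj _ φ, v => ∃ i, (φ i).Holds M v
  | _, .all φ, v => ∀ a : M, φ.Holds M (Fin.snoc v a : Fin (_ + 1) → M)
  | _, .ex φ, v => ∃ a : M, φ.Holds M (Fin.snoc v a : Fin (_ + 1) → M)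

/-- All conjunctions and disjunctions in the formula are over countable index types. -/
def Formula.IsCountable {L : FirstOrder.Language.{0, 0}} : {n : ℕ} → Formula L n → Prop
  | _, .equal _ _ => True
  | _, .rel _ _ => True
  | _, .neg φ => φ.IsCountable
  | _, .conj ι φ => Countable ι ∧ ∀ i, (φ i).IsCountable
  | _, .disj ι φ => Countable ι ∧ ∀ i, (φ i).IsCountable
  | _, .all φ => φ.IsCountable
  | _, .ex φ => φ.IsCountable

/-- `f` is a homomorphism from `M` to the structure `S` on `Fin m`. -/
def IsHom {L : FirstOrder.Language.{0, 0}} {M : Type u} [L.Structure M] {m : ℕ}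
    (S : L.Structure (Fin m)) (f : M → Fin m) : Prop :=
  (∀ (k : ℕ) (F : L.Functions k) (v : Fin k → M),
    f (Language.Structure.funMap F v) = S.funMap F (fun i => f (v i))) ∧
  (∀ (k : ℕ) (R : L.Relations k) (v : Fin k → M),
    Language.Structure.RelMap R v → S.RelMap R (fun i => f (v i)))

/-- Any two distinct points of `M` are separated by a homomorphism into a member of `K`; here `K`
is a class of structures on the sets `Fin m`. -/
def Residually {L : FirstOrder.Language.{0, 0}} (K : ∀ m : ℕ, Set (L.Structure (Fin m)))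
    (M : Type u) [L.Structure M] : Prop :=
  ∀ x y : M, x ≠ y → ∃ (m : ℕ) (S : L.Structure (Fin m)) (f : M → Fin m),
    S ∈ K m ∧ IsHom S f ∧ f x ≠ f y

/-- Any two distinct points of `M` are separated by a homomorphism onto a member of `K`. -/
def ResiduallyOnto {L : FirstOrder.Language.{0, 0}} (K : ∀ m : ℕ, Set (L.Structure (Fin m)))
    (M : Type u) [L.Structure M] : Prop :=
  ∀ x y : M, x ≠ y → ∃ (m : ℕ) (S : L.Structure (Fin m)) (f : M → Fin m),
    S ∈ K m ∧ IsHom S f ∧ Function.Surjective f ∧ f x ≠ f y

section general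

variable {L : FirstOrder.Language.{0, 0}}

/-- Universal quantification of the last `k` variables. -/
def alls {n : ℕ} : (k : ℕ) → Formula L (n + k) → Formula L n
  | 0, φ => φ
  | k + 1, φ => alls k (.all φ)

/-- Existential quantification of the last `k` variables. -/
def exs {n : ℕ} : (k : ℕ) → Formula L (n + k) → Formula L n
  | 0, φ => φ
  | k + 1, φ => exs k (.ex φ)

theorem isCountable_alls {n : ℕ} (k : ℕ) (φ : Formula L (n + k)) (h : φ.IsCountable) :
    (alls k φ).IsCountable := by
  induction k with
  | zero => exact h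
  | succ k ih => exact ih (.all φ) h

theorem isCountable_exs {n : ℕ} (k : ℕ) (φ : Formula L (n + k)) (h : φ.IsCountable) :
    (exs k φ).IsCountable := by
  induction k with
  | zero => exact h
  | succ k ih => exact ih (.ex φ) h

variable {M : Type u} [L.Structure M]

theorem holds_alls {n : ℕ} (k : ℕ) (φ : Formula L (n + k)) (v : Fin n → M) :
    (alls k φ).Holds M v ↔
      ∀ u : Fin (n + k) → M, (∀ i : Fin n, u (Fin.castAdd k i) = v i) → φ.Holds M u := by
  induction k with
  | zero =>
    constructor
    · intro h u hu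
      have : u = v := funext hu
      rw [this]
      exact h
    · intro h
      exact h v fun i => rfl
  | succ k ih =>
    refine (ih (.all φ)).trans ?_
    constructor
    · intro h u hu
      have h1 := h (fun i => u i.castSucc) (fun i => hu i) (u (Fin.last _))
      have h2 : (Fin.snoc (fun i => u i.castSucc) (u (Fin.last _)) : Fin (n + k + 1) → M) = u :=
        Fin.snoc_init_self u
      rw [h2] at h1
      exact h1
    · intro h u hu a
      refine h (Fin.snoc u a : Fin (n + k + 1) → M) fun i => ?_
      have : (Fin.castAdd (k + 1) i : Fin (n + (k + 1))) = (Fin.castAdd k i).castSucc := rfl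
      rw [this]
      exact (Fin.snoc_castSucc (α := fun _ => M) a u (Fin.castAdd k i)).trans (hu i)

theorem holds_exs {n : ℕ} (k : ℕ) (φ : Formula L (n + k)) (v : Fin n → M) :
    (exs k φ).Holds M v ↔
      ∃ u : Fin (n + k) → M, (∀ i : Fin n, u (Fin.castAdd k i) = v i) ∧ φ.Holds M u := by
  induction k with
  | zero =>
    constructor
    · intro h
      exact ⟨v, fun i => rfl, h⟩
    · rintro ⟨u, hu, h⟩
      have : u = v := funext hu
      rw [this] at h
      exact h
  | succ k ih =>
    refine (ih (.ex φ)).trans ?_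
    constructor
    · rintro ⟨u, hu, a, h⟩
      refine ⟨(Fin.snoc u a : Fin (n + k + 1) → M), fun i => ?_, h⟩
      have : (Fin.castAdd (k + 1) i : Fin (n + (k + 1))) = (Fin.castAdd k i).castSucc := rfl
      rw [this]
      exact (Fin.snoc_castSucc (α := fun _ => M) a u (Fin.castAdd k i)).trans (hu i)
    · rintro ⟨u, hu, h⟩
      refine ⟨fun i => u i.castSucc, fun i => hu i, u (Fin.last _), ?_⟩
      have h2 : (Fin.snoc (fun i => u i.castSucc) (u (Fin.last _)) : Fin (n + k + 1) → M) = u :=
        Fin.snoc_init_self u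
      rw [h2]
      exact h

/-- The map `f` from the variables to the structure `S` respects equalities, function symbols and
relation symbols between variables. -/
def respects {m : ℕ} (S : L.Structure (Fin m)) {N : ℕ} (f : Fin N → Fin m) : Formula L N :=
  .conj (Fin 3) fun b => match b with
    | 0 => .conj {p : Fin N × Fin N // f p.1 ≠ f p.2} fun p => .neg (.equal (.var p.1.1) (.var p.1.2))
    | 1 => .conj {q : (Σ k : ℕ, L.Functions k × (Fin k → Fin N) × Fin N) //
          S.funMap q.2.1 (fun i => f (q.2.2.1 i)) ≠ f q.2.2.2} fun q =>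
        .neg (.equal (.func q.1.2.1 (fun i => .var (q.1.2.2.1 i))) (.var q.1.2.2.2))
    | 2 => .conj {q : (Σ k : ℕ, L.Relations k × (Fin k → Fin N)) //
          ¬ S.RelMap q.2.1 (fun i => f (q.2.2 i))} fun q =>
        .neg (.rel q.1.2.1 (fun i => .var (q.1.2.2 i)))

theorem holds_respects {m : ℕ} (S : L.Structure (Fin m)) {N : ℕ} (f : Fin N → Fin m)
    (u : Fin N → M) : (respects S f).Holds M u ↔
      (∀ i j, u i = u j → f i = f j) ∧
      (∀ (k : ℕ) (F : L.Functions k) (v : Fin k → Fin N) (i : Fin N),
        Language.Structure.funMap F (fun j => u (v j)) = u i →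
          S.funMap F (fun j => f (v j)) = f i) ∧
      (∀ (k : ℕ) (R : L.Relations k) (v : Fin k → Fin N),
        Language.Structure.RelMap R (fun j => u (v j)) → S.RelMap R (fun j => f (v j))) := by
  constructor
  · intro h
    refine ⟨fun i j hij => ?_, fun k F v i hi => ?_, fun k R v hv => ?_⟩
    · by_contra hne
      exact h 0 ⟨(i, j), hne⟩ hij
    · by_contra hne
      exact h 1 ⟨⟨k, F, v, i⟩, hne⟩ hi
    · by_contra hne
      exact h 2 ⟨⟨k, R, v⟩, hne⟩ hv
  · rintro ⟨h0, h1, h2⟩ b
    fin_cases b
    · rintro ⟨⟨i, j⟩, hne⟩ hij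
      exact hne (h0 i j hij)
    · rintro ⟨⟨k, F, v, i⟩, hne⟩ hi
      exact hne (h1 k F v i hi)
    · rintro ⟨⟨k, R, v⟩, hne⟩ hv
      exact hne (h2 k R v hv)

theorem isCountable_respects (hF : ∀ k, Countable (L.Functions k))
    (hR : ∀ k, Countable (L.Relations k)) {m : ℕ} (S : L.Structure (Fin m)) {N : ℕ}
    (f : Fin N → Fin m) : (respects S f).IsCountable := by
  refine ⟨inferInstance, fun b => ?_⟩
  fin_cases b
  · exact ⟨inferInstance, fun p => trivial⟩
  · exact ⟨inferInstance, fun p => trivial⟩
  · exact ⟨inferInstance, fun p => trivial⟩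

/-- Index of the two points to be separated. -/
abbrev ix {m k : ℕ} (i : Fin 2) : Fin (2 + m + k) := Fin.castAdd k (Fin.castAdd m i)

/-- Index of the `m` points which are to be mapped to prescribed values. -/
abbrev iw {m k : ℕ} (j : Fin m) : Fin (2 + m + k) := Fin.castAdd k (Fin.natAdd 2 j)

/-- Local form of the existence of a separating homomorphism. -/
def localForm {m : ℕ} (S : L.Structure (Fin m)) (A : Set (Fin m)) : Formula L (2 + m) :=
  .conj ℕ fun k => alls k (.disj {f : Fin (2 + m + k) → Fin m //
    f (ix 0) ≠ f (ix 1) ∧ ∀ j ∈ A, f (iw j) = j} fun f => respects S f.1)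

/-- The sentence. -/
def sentence (K : ∀ m : ℕ, Set (L.Structure (Fin m) × Set (Fin m))) : Formula L 0 :=
  .all (.all (.disj (Option (Σ m, K m)) fun o => match o with
    | none => .equal (.var (0 : Fin 2)) (.var (1 : Fin 2))
    | some p => exs (n := 2) p.1 (localForm p.2.1.1 p.2.1.2)))

theorem isCountable_localForm (hF : ∀ k, Countable (L.Functions k))
    (hR : ∀ k, Countable (L.Relations k)) {m : ℕ} (S : L.Structure (Fin m)) (A : Set (Fin m)) :
    (localForm S A).IsCountable := by
  refine ⟨inferInstance, fun k => isCountable_alls k _ ?_⟩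
  exact ⟨inferInstance, fun f => isCountable_respects hF hR _ _⟩

theorem isCountable_sentence (hF : ∀ k, Countable (L.Functions k))
    (hR : ∀ k, Countable (L.Relations k))
    (K : ∀ m : ℕ, Set (L.Structure (Fin m) × Set (Fin m))) (hK : ∀ m, (K m).Countable) :
    (sentence K).IsCountable := by
  have h1 : ∀ m, Countable (K m) := fun m => (hK m).to_subtype
  have h2 : Countable (Option (Σ m, K m)) := inferInstance
  have h3 : ∀ o : Option (Σ m, K m), (match o with
    | none => .equal (.var (0 : Fin 2)) (.var (1 : Fin 2))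
    | some p => exs (n := 2) p.1 (localForm p.2.1.1 p.2.1.2) : Formula L 2).IsCountable := by
    intro o
    cases o with
    | none => trivial
    | some p => exact isCountable_exs p.1 _ (isCountable_localForm hF hR p.2.1.1 p.2.1.2)
  exact ⟨h2, h3⟩

theorem holds_localForm {m : ℕ} (S : L.Structure (Fin m)) (A : Set (Fin m))
    (u0 : Fin (2 + m) → M) : (localForm S A).Holds M u0 ↔
      ∀ (k : ℕ) (u : Fin (2 + m + k) → M), (∀ i, u (Fin.castAdd k i) = u0 i) →
        ∃ f : Fin (2 + m + k) → Fin m, (f (ix 0) ≠ f (ix 1) ∧ ∀ j ∈ A, f (iw j) = j) ∧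
          (∀ i j, u i = u j → f i = f j) ∧
          (∀ (n : ℕ) (F : L.Functions n) (v : Fin n → Fin (2 + m + k)) (i : Fin (2 + m + k)),
            Language.Structure.funMap F (fun j => u (v j)) = u i →
              S.funMap F (fun j => f (v j)) = f i) ∧
          (∀ (n : ℕ) (R : L.Relations n) (v : Fin n → Fin (2 + m + k)),
            Language.Structure.RelMap R (fun j => u (v j)) → S.RelMap R (fun j => f (v j))) := by
  constructor
  · intro h k u hu
    have h1 := (holds_alls k _ u0).1 (h k) u hu
    obtain ⟨⟨f, hf⟩, h2⟩ := h1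
    exact ⟨f, hf, (holds_respects S f u).1 h2⟩
  · intro h k
    refine (holds_alls k _ u0).2 fun u hu => ?_
    obtain ⟨f, hf, h2⟩ := h k u hu
    exact ⟨⟨f, hf⟩, (holds_respects S f u).2 h2⟩

/-- The local form gives, by compactness, a genuine homomorphism. -/
theorem exists_hom {m : ℕ} (S : L.Structure (Fin m)) (A : Set (Fin m))
    (u0 : Fin (2 + m) → M) (h : (localForm S A).Holds M u0) :
    ∃ f : M → Fin m, IsHom S f ∧ f (u0 (Fin.castAdd m 0)) ≠ f (u0 (Fin.castAdd m 1)) ∧
      ∀ j ∈ A, f (u0 (Fin.natAdd 2 j)) = j := by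
  classical
  rw [holds_localForm] at h
  let U : ∀ s : Finset M, Fin (2 + m + s.card) → M := fun s =>
    Fin.append u0 (fun i => (s.equivFin.symm i : M))
  have hU : ∀ s i, U s (Fin.castAdd s.card i) = u0 i := fun s i => Fin.append_left _ _ _
  choose F hF0 hF1 hF2 hF3 using fun s : Finset M => h s.card (U s) (hU s)
  let J : ∀ s : Finset M, ∀ a : M, a ∈ s → Fin (2 + m + s.card) := fun s a ha =>
    Fin.natAdd (2 + m) (s.equivFin ⟨a, ha⟩)
  have hJ : ∀ s a (ha : a ∈ s), U s (J s a ha) = a := by
    intro s a ha
    show Fin.append u0 (fun i => (s.equivFin.symm i : M))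
      (Fin.natAdd (2 + m) (s.equivFin ⟨a, ha⟩)) = a
    rw [Fin.append_right]
    simp
  let g : Finset M → M → Fin m := fun s a =>
    if ha : a ∈ s then F s (J s a ha) else F s (ix 0)
  have hg : ∀ s a, a ∈ s → ∀ i, U s i = a → g s a = F s i := by
    intro s a ha i hi
    show (if ha : a ∈ s then F s (J s a ha) else F s (ix 0)) = F s i
    rw [dif_pos ha]
    exact hF1 s _ _ ((hJ s a ha).trans hi.symm)
  obtain ⟨χ, hχ⟩ := Finset.rado_selection (β := fun _ : M => Fin m) g
  refine ⟨χ, ⟨?_, ?_⟩, ?_, ?_⟩
  · intro k f v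
    obtain ⟨t, hst, ht⟩ := hχ (insert (Language.Structure.funMap f v) (Finset.univ.image v))
    have hmem : ∀ a ∈ insert (Language.Structure.funMap f v) (Finset.univ.image v),
        a ∈ t := fun a ha => hst ha
    have hv : ∀ j, v j ∈ t := fun j => hmem _ (by simp)
    have hf : Language.Structure.funMap f v ∈ t := hmem _ (by simp)
    have h1 : ∀ j, χ (v j) = F t (J t (v j) (hv j)) := fun j => by
      rw [ht (v j) (by simp)]
      exact hg t _ (hv j) _ (hJ t _ _)
    have h2 : χ (Language.Structure.funMap f v) =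
        F t (J t (Language.Structure.funMap f v) hf) := by
      rw [ht _ (by simp)]
      exact hg t _ hf _ (hJ t _ _)
    rw [h2]
    have h3 := hF2 t k f (fun j => J t (v j) (hv j))
      (J t (Language.Structure.funMap f v) hf) (by
        rw [hJ]
        congr 1
        funext j
        exact hJ t _ _)
    rw [← h3]
    congr 1
    funext j
    exact (h1 j).symm
  · intro k r v hr
    obtain ⟨t, hst, ht⟩ := hχ (Finset.univ.image v)
    have hv : ∀ j, v j ∈ t := fun j => hst (by simp)
    have h1 : ∀ j, χ (v j) = F t (J t (v j) (hv j)) := fun j => by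
      rw [ht (v j) (by simp)]
      exact hg t _ (hv j) _ (hJ t _ _)
    have h3 := hF3 t k r (fun j => J t (v j) (hv j)) (by
      have : (fun j => U t (J t (v j) (hv j))) = v := by
        funext j
        exact hJ t _ _
      rw [this]
      exact hr)
    have h4 : (fun i => χ (v i)) = fun j => F t (J t (v j) (hv j)) := funext h1
    rw [h4]
    exact h3
  · obtain ⟨t, hst, ht⟩ := hχ {u0 (Fin.castAdd m 0), u0 (Fin.castAdd m 1)}
    rw [ht _ (by simp), ht (u0 (Fin.castAdd m 1)) (by simp),
      hg t _ (hst (by simp)) (ix 0) (hU t _), hg t _ (hst (by simp)) (ix 1) (hU t _)]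
    exact (hF0 t).1
  · intro j hj
    obtain ⟨t, hst, ht⟩ := hχ {u0 (Fin.natAdd 2 j)}
    rw [ht _ (by simp), hg t _ (hst (by simp)) (iw j) (hU t _)]
    exact (hF0 t).2 j hj

theorem holds_localForm_of_hom {m : ℕ} (S : L.Structure (Fin m)) (A : Set (Fin m))
    (u0 : Fin (2 + m) → M) (f : M → Fin m) (hf : IsHom S f)
    (h1 : f (u0 (Fin.castAdd m 0)) ≠ f (u0 (Fin.castAdd m 1)))
    (h2 : ∀ j ∈ A, f (u0 (Fin.natAdd 2 j)) = j) : (localForm S A).Holds M u0 := by
  rw [holds_localForm]
  intro k u hu
  refine ⟨fun i => f (u i), ⟨?_, ?_⟩, ?_, ?_, ?_⟩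
  · show f (u (ix 0)) ≠ f (u (ix 1))
    rw [hu, hu]
    exact h1
  · intro j hj
    show f (u (iw j)) = j
    rw [hu]
    exact h2 j hj
  · intro i j hij
    show f (u i) = f (u j)
    rw [hij]
  · intro n F v i hi
    show S.funMap F (fun j => f (u (v j))) = f (u i)
    rw [← hi]
    exact (hf.1 n F _).symm
  · intro n R v hv
    exact hf.2 n R _ hv

theorem holds_sentence (K : ∀ m : ℕ, Set (L.Structure (Fin m) × Set (Fin m))) (v : Fin 0 → M) :
    (sentence K).Holds M v ↔ ∀ x y : M, x ≠ y → ∃ (m : ℕ) (p : L.Structure (Fin m) × Set (Fin m))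
      (f : M → Fin m), p ∈ K m ∧ IsHom p.1 f ∧ f x ≠ f y ∧ ∀ j ∈ p.2, ∃ a, f a = j := by
  constructor
  · intro h x y hxy
    obtain ⟨o, ho⟩ := h x y
    cases o with
    | none => exact absurd ho hxy
    | some p =>
      obtain ⟨u, hu, h2⟩ := (holds_exs (n := 2) p.1 _ _).1 ho
      obtain ⟨f, hf, h3, h4⟩ := exists_hom p.2.1.1 p.2.1.2 u h2
      refine ⟨p.1, p.2.1, f, p.2.2, hf, ?_, fun j hj => ⟨_, h4 j hj⟩⟩
      have e0 := hu 0
      have e1 := hu 1
      rw [e0, e1] at h3
      exact h3
  · intro h x y
    by_cases hxy : x = y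
    · exact ⟨none, hxy⟩
    · obtain ⟨m, p, f, hp, hf, h3, h4⟩ := h x y hxy
      refine ⟨some ⟨m, p, hp⟩, ?_⟩
      have h5 : ∀ j : Fin m, ∃ a : M, j ∈ p.2 → f a = j := fun j => by
        by_cases hj : j ∈ p.2
        · obtain ⟨a, ha⟩ := h4 j hj
          exact ⟨a, fun _ => ha⟩
        · exact ⟨x, fun h => absurd h hj⟩
      choose w hw using h5
      refine (holds_exs (n := 2) m _ _).2 ⟨Fin.append
        (Fin.snoc (Fin.snoc v x : Fin 1 → M) y : Fin 2 → M) w, fun i => Fin.append_left _ _ _, ?_⟩
      apply holds_localForm_of_hom p.1 p.2 _ f hf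
      · rw [Fin.append_left, Fin.append_left]
        exact h3
      · intro j hj
        rw [Fin.append_right]
        exact hw j hj

end general

theorem exists_sentence (L : FirstOrder.Language.{0, 0})
    (K : ∀ m : ℕ, Set (L.Structure (Fin m))) :
    ∃ φ : Formula L 0,
      ((∀ n, Countable (L.Functions n)) → (∀ n, Countable (L.Relations n)) →
        (∀ m, (K m).Countable) → φ.IsCountable) ∧
      ∀ (M : Type u) [L.Structure M], φ.Holds M Fin.elim0 ↔ Residually K M := by
  refine ⟨sentence fun m => K m ×ˢ {∅}, fun hF hR hK => isCountable_sentence hF hR _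
    fun m => (hK m).prod (Set.countable_singleton _), fun M _ => ?_⟩
  rw [holds_sentence]
  constructor
  · intro h x y hxy
    obtain ⟨m, p, f, hp, hf, h1, -⟩ := h x y hxy
    exact ⟨m, p.1, f, hp.1, hf, h1⟩
  · intro h x y hxy
    obtain ⟨m, S, f, hS, hf, h1⟩ := h x y hxy
    exact ⟨m, (S, ∅), f, ⟨hS, rfl⟩, hf, h1, fun j hj => absurd hj (Set.notMem_empty j)⟩

theorem exists_sentence_onto (L : FirstOrder.Language.{0, 0})
    (K : ∀ m : ℕ, Set (L.Structure (Fin m))) :
    ∃ φ : Formula L 0,
      ((∀ n, Countable (L.Functions n)) → (∀ n, Countable (L.Relations n)) →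
        (∀ m, (K m).Countable) → φ.IsCountable) ∧
      ∀ (M : Type u) [L.Structure M], φ.Holds M Fin.elim0 ↔ ResiduallyOnto K M := by
  refine ⟨sentence fun m => K m ×ˢ {Set.univ}, fun hF hR hK => isCountable_sentence hF hR _
    fun m => (hK m).prod (Set.countable_singleton _), fun M _ => ?_⟩
  rw [holds_sentence]
  constructor
  · intro h x y hxy
    obtain ⟨m, p, f, hp, hf, h1, h2⟩ := h x y hxy
    refine ⟨m, p.1, f, hp.1, hf, fun j => h2 j ?_, h1⟩
    have : p.2 = Set.univ := hp.2
    rw [this]
    exact Set.mem_univ j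
  · intro h x y hxy
    obtain ⟨m, S, f, hS, hf, h2, h1⟩ := h x y hxy
    exact ⟨m, (S, Set.univ), f, ⟨hS, rfl⟩, hf, h1, fun j _ => h2 j⟩

/-- A signature with finitely many symbols has finitely many structures on a finite set. -/
theorem finite_structure (L : FirstOrder.Language.{0, 0}) (hF : Finite (Σ n, L.Functions n))
    (hR : Finite (Σ n, L.Relations n)) (m : ℕ) : Finite (L.Structure (Fin m)) := by
  let T := (∀ p : (Σ n, L.Functions n), (Fin p.1 → Fin m) → Fin m) ×
    (∀ p : (Σ n, L.Relations n), (Fin p.1 → Fin m) → Prop)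
  let j : L.Structure (Fin m) → T := fun S => (fun p v => S.funMap p.2 v, fun p v => S.RelMap p.2 v)
  refine Finite.of_injective (β := T) j ?_
  intro S S' h
  have h1 : (fun (p : (Σ n, L.Functions n)) (v : Fin p.1 → Fin m) => S.funMap p.2 v) =
    fun p v => S'.funMap p.2 v := congrArg Prod.fst h
  have h2 : (fun (p : (Σ n, L.Relations n)) (v : Fin p.1 → Fin m) => S.RelMap p.2 v) =
    fun p v => S'.RelMap p.2 v := congrArg Prod.snd h
  obtain ⟨f, r⟩ := S
  obtain ⟨f', r'⟩ := S'
  have e1 : @f = @f' := by
    funext n F v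
    exact congrFun (congrFun h1 ⟨n, F⟩) v
  have e2 : @r = @r' := by
    funext n F v
    exact congrFun (congrFun h2 ⟨n, F⟩) v
  subst e1
  subst e2
  rfl

theorem countable_of_finite_sigma {X : ℕ → Type} (h : Finite (Σ n, X n)) (n : ℕ) :
    Countable (X n) := by
  have : Finite (X n) := Finite.of_injective (fun x => (⟨n, x⟩ : Σ n, X n)) (by
    intro a b hab
    exact eq_of_heq (Sigma.mk.inj_iff.1 hab).2)
  infer_instance

/-! ### Rings -/

section rings

open Pool.Agent.Results.MP_f264ea_lc.Rings

/-- The structure over the signature of rings given by a ring structure on `Fin m`. -/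
@[reducible] def ringStr {m : ℕ} (R : NonUnitalRing (Fin m)) : ringSig.Structure (Fin m) where
  funMap := fun {_} F v => match F with
    | .add => R.add (v 0) (v 1)
    | .neg => R.neg (v 0)
    | .mul => R.mul (v 0) (v 1)
    | .zero => R.zero
  RelMap := fun {_} r _ => r.elim

/-- The finite rings. -/
def KRing (m : ℕ) : Set (ringSig.Structure (Fin m)) :=
  {S | ∃ R : NonUnitalRing (Fin m), S = ringStr R}

variable (M : Type u) [ringSig.Structure M]

theorem ring_hom {m : ℕ} (R : NonUnitalRing (Fin m)) (f : M → Fin m)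
    (hf : IsHom (ringStr R) f) :
    (∀ x y, f (Rings.opAdd M x y) = R.add (f x) (f y)) ∧
    (∀ x, f (Rings.opNeg M x) = R.neg (f x)) ∧
    (∀ x y, f (Rings.opMul M x y) = R.mul (f x) (f y)) ∧ f (Rings.opZero M) = R.zero :=
  ⟨fun x y => hf.1 2 RingFunc.add ![x, y], fun x => hf.1 1 RingFunc.neg ![x],
    fun x y => hf.1 2 RingFunc.mul ![x, y], hf.1 0 RingFunc.zero ![]⟩

theorem residually_ring : Residually KRing M ↔ IsResiduallyFiniteRing M := by
  constructor
  · intro h
    have sep : ∀ a b : M, (∀ (Q : Type) (_ : NonUnitalRing Q) (f : M → Q),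
        (∀ x y, f (Rings.opAdd M x y) = f x + f y) → (∀ x, f (Rings.opNeg M x) = - f x) →
        (∀ x y, f (Rings.opMul M x y) = f x * f y) → f (Rings.opZero M) = 0 → f a = f b) →
        a = b := by
      intro a b hab
      by_contra hne
      obtain ⟨m, S, f, ⟨R, rfl⟩, hf, h1⟩ := h a b hne
      obtain ⟨h2, h3, h4, h5⟩ := ring_hom M R f hf
      exact h1 (hab (Fin m) R f h2 h3 h4 h5)
    have laws : RingLaws M := by
      intro x y z
      refine ⟨?_, ?_, ?_, ?_, ?_, ?_, ?_⟩ <;> refine sep _ _ fun Q R f h1 h2 h3 h4 => ?_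
      · simp only [h1, add_assoc]
      · simp only [h1, add_comm]
      · simp only [h1, h4, add_zero]
      · simp only [h1, h2, h4, add_neg_cancel]
      · simp only [h3, mul_assoc]
      · simp only [h1, h3, mul_add]
      · simp only [h1, h3, add_mul]
    refine ⟨mkRing laws, agrees_mkRing laws, ?_⟩
    let _ : NonUnitalRing M := mkRing laws
    intro a ha
    obtain ⟨m, S, χ, ⟨R, rfl⟩, hf, h1⟩ := h a 0 ha
    obtain ⟨h2, h3, h4, h5⟩ := ring_hom M R χ hf
    let Q : FinRing := ⟨m, R⟩
    let φ : M →ₙ+* Q.Carrier :=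
      { toFun := χ
        map_mul' := h4
        map_add' := h2
        map_zero' := h5 }
    refine ⟨TwoSidedIdeal.ker φ, ?_, ?_⟩
    · refine Finite.of_injective
        (fun q : (TwoSidedIdeal.ker φ).ringCon.Quotient =>
          Quotient.lift (s := (TwoSidedIdeal.ker φ).ringCon.toSetoid) χ
            (fun x y hxy => hxy) q) ?_
      intro p q
      refine Quotient.inductionOn₂' p q ?_
      intro x y hxy
      exact Quotient.sound' hxy
    · rw [TwoSidedIdeal.mem_ker]
      intro h0
      exact h1 ((show χ a = R.zero from h0).trans h5.symm)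
  · rintro ⟨R, hR, hrf⟩ x y hxy
    obtain ⟨I, hI, haI⟩ := hrf (x - y) (sub_ne_zero.2 hxy)
    obtain ⟨Q, ⟨e⟩⟩ := exists_finRing I.ringCon.Quotient
    let R' : NonUnitalRing (Fin Q.1) := Q.2
    let q : M → I.ringCon.Quotient := fun a => (a : I.ringCon.Quotient)
    refine ⟨Q.1, ringStr Q.2, fun a => e (q a), ⟨Q.2, rfl⟩, ⟨?_, fun k r => r.elim⟩, ?_⟩
    · intro k F v
      cases F with
      | add =>
        show e (q (Language.Structure.funMap (L := ringSig) RingFunc.add v)) = e (q (v 0)) + e (q (v 1))
        rw [hR.1, ← map_add]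
        rfl
      | neg =>
        show e (q (Language.Structure.funMap (L := ringSig) RingFunc.neg v)) = - e (q (v 0))
        rw [hR.2.1, ← map_neg]
        rfl
      | mul =>
        show e (q (Language.Structure.funMap (L := ringSig) RingFunc.mul v)) = e (q (v 0)) * e (q (v 1))
        rw [hR.2.2.1, ← map_mul]
        rfl
      | zero =>
        show e (q (Language.Structure.funMap (L := ringSig) RingFunc.zero v)) = 0
        rw [hR.2.2.2, ← map_zero e]
        rfl
    · intro h0
      apply haI
      have h1 : q x = q y := e.injective h0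
      rw [TwoSidedIdeal.mem_iff]
      have h2 : I.ringCon x y := (RingCon.eq _).mp h1
      have h3 := I.ringCon.sub h2 (I.ringCon.refl y)
      rwa [sub_self] at h3

end rings

/-! ### Groups -/

section groups

open Pool.Agent.Results.MP_f264ea_lc.Groups

/-- The structure over the signature of groups given by a group structure on `Fin m`. -/
@[reducible] def groupStr {m : ℕ} (G : Group (Fin m)) : groupSig.Structure (Fin m) where
  funMap := fun {_} F v => match F with
    | .mul => G.mul (v 0) (v 1)
    | .inv => G.inv (v 0)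
    | .one => G.one
  RelMap := fun {_} r _ => r.elim

/-- The finite groups. -/
def KGroup (m : ℕ) : Set (groupSig.Structure (Fin m)) :=
  {S | ∃ G : Group (Fin m), S = groupStr G}

variable (M : Type u) [groupSig.Structure M]

theorem group_hom {m : ℕ} (G : Group (Fin m)) (f : M → Fin m)
    (hf : IsHom (groupStr G) f) :
    (∀ x y, f (Groups.opMul M x y) = G.mul (f x) (f y)) ∧
    (∀ x, f (Groups.opInv M x) = G.inv (f x)) ∧ f (Groups.opOne M) = G.one :=
  ⟨fun x y => hf.1 2 GroupFunc.mul ![x, y], fun x => hf.1 1 GroupFunc.inv ![x],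
    hf.1 0 GroupFunc.one ![]⟩

theorem residually_group : Residually KGroup M ↔ IsResiduallyFiniteGroup M := by
  constructor
  · intro h
    have sep : ∀ a b : M, (∀ (Q : Type) (_ : Group Q) (f : M → Q),
        (∀ x y, f (Groups.opMul M x y) = f x * f y) → (∀ x, f (Groups.opInv M x) = (f x)⁻¹) →
        f (Groups.opOne M) = 1 → f a = f b) → a = b := by
      intro a b hab
      by_contra hne
      obtain ⟨m, S, f, ⟨G, rfl⟩, hf, h1⟩ := h a b hne
      obtain ⟨h2, h3, h4⟩ := group_hom M G f hf
      exact h1 (hab (Fin m) G f h2 h3 h4)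
    have laws : GroupLaws M := by
      intro x y z
      refine ⟨?_, ?_, ?_⟩ <;> refine sep _ _ fun Q G f h1 h2 h3 => ?_
      · simp only [h1, mul_assoc]
      · simp only [h1, h3, one_mul]
      · simp only [h1, h2, h3, inv_mul_cancel]
    refine ⟨mkGroup laws, agrees_mkGroup laws, ?_⟩
    let _ : Group M := mkGroup laws
    intro a ha
    obtain ⟨m, S, χ, ⟨G, rfl⟩, hf, h1⟩ := h a 1 ha
    obtain ⟨h2, h3, h4⟩ := group_hom M G χ hf
    let Q : FinGroup := ⟨m, G⟩
    let φ : M →* Q.Carrier := MonoidHom.mk' χ h2
    refine ⟨φ.ker, inferInstance, ?_, ?_⟩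
    · exact Subgroup.finiteIndex_ker φ
    · rw [MonoidHom.mem_ker]
      intro h0
      exact h1 ((show χ a = G.one from h0).trans h4.symm)
  · rintro ⟨G, hG, hrf⟩ x y hxy
    have hne : x * y⁻¹ ≠ 1 := fun h => hxy (mul_inv_eq_one.1 h)
    obtain ⟨N, hN, hfin, haN⟩ := hrf _ hne
    obtain ⟨Q, ⟨e⟩⟩ := exists_finGroup (M ⧸ N)
    let G' : Group (Fin Q.1) := Q.2
    let q : M → M ⧸ N := fun a => (a : M ⧸ N)
    refine ⟨Q.1, groupStr Q.2, fun a => e (q a), ⟨Q.2, rfl⟩, ⟨?_, fun k r => r.elim⟩, ?_⟩
    · intro k F v
      cases F with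
      | mul =>
        show e (q (Language.Structure.funMap (L := groupSig) GroupFunc.mul v)) = e (q (v 0)) * e (q (v 1))
        rw [hG.1, ← map_mul]
        rfl
      | inv =>
        show e (q (Language.Structure.funMap (L := groupSig) GroupFunc.inv v)) = (e (q (v 0)))⁻¹
        rw [hG.2.1, ← map_inv]
        rfl
      | one =>
        show e (q (Language.Structure.funMap (L := groupSig) GroupFunc.one v)) = 1
        rw [hG.2.2, ← map_one e]
        rfl
    · intro h0
      apply haN
      have h1 : q x = q y := e.injective h0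
      have h2 : q (x * y⁻¹) = 1 := by
        show ((x * y⁻¹ : M) : M ⧸ N) = 1
        rw [QuotientGroup.mk_mul, QuotientGroup.mk_inv]
        show q x * (q y)⁻¹ = 1
        rw [h1, mul_inv_cancel]
      exact (QuotientGroup.eq_one_iff _).mp h2

end groups

theorem countable_of_finite (L : FirstOrder.Language.{0, 0}) (hF : Finite (Σ n, L.Functions n))
    (hR : Finite (Σ n, L.Relations n)) (K : ∀ m : ℕ, Set (L.Structure (Fin m))) :
    (∀ n, Countable (L.Functions n)) ∧ (∀ n, Countable (L.Relations n)) ∧
      ∀ m, (K m).Countable := by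
  refine ⟨countable_of_finite_sigma hF, countable_of_finite_sigma hR, fun m => ?_⟩
  have := finite_structure L hF hR m
  exact (Set.toFinite (K m)).countable

theorem finite_ringFunc : Finite (Σ n, Rings.ringSig.Functions n) := by
  refine Finite.of_surjective (α := Fin 4) (fun i => match i with
    | 0 => ⟨2, Rings.RingFunc.add⟩
    | 1 => ⟨1, Rings.RingFunc.neg⟩
    | 2 => ⟨2, Rings.RingFunc.mul⟩
    | 3 => ⟨0, Rings.RingFunc.zero⟩) ?_
  rintro ⟨n, F⟩
  cases F with
  | add => exact ⟨0, rfl⟩
  | neg => exact ⟨1, rfl⟩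
  | mul => exact ⟨2, rfl⟩
  | zero => exact ⟨3, rfl⟩

theorem finite_groupFunc : Finite (Σ n, Groups.groupSig.Functions n) := by
  refine Finite.of_surjective (α := Fin 3) (fun i => match i with
    | 0 => ⟨2, Groups.GroupFunc.mul⟩
    | 1 => ⟨1, Groups.GroupFunc.inv⟩
    | 2 => ⟨0, Groups.GroupFunc.one⟩) ?_
  rintro ⟨n, F⟩
  cases F with
  | mul => exact ⟨0, rfl⟩
  | inv => exact ⟨1, rfl⟩
  | one => exact ⟨2, rfl⟩

theorem finite_ringRel : Finite (Σ n, Rings.ringSig.Relations n) := by
  have : IsEmpty (Σ n, Rings.ringSig.Relations n) := ⟨fun p => p.2.elim⟩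
  infer_instance

theorem finite_groupRel : Finite (Σ n, Groups.groupSig.Relations n) := by
  have : IsEmpty (Σ n, Groups.groupSig.Relations n) := ⟨fun p => p.2.elim⟩
  infer_instance

/-- (1) Q1: residually finite rings, and (2) Q2: residually finite groups, are axiomatized by one
sentence with countable conjunctions and disjunctions and with quantifiers over single variables.
(3), (4) For every signature `L` and every class `K` of finite `L`-structures there is one sentence
(with arbitrary conjunctions and disjunctions and quantifiers over single variables) the models of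
which are exactly the `L`-structures any two distinct points of which are separated by a
homomorphism into, respectively onto, a member of `K`.  If the signature and the class are
countable, then the conjunctions and disjunctions are countable.  (5) This holds for every class of
finite structures if the signature has finitely many symbols. -/
theorem result :
    (∃ φ : Formula Rings.ringSig 0, φ.IsCountable ∧
      ∀ (M : Type u) [Rings.ringSig.Structure M],
        φ.Holds M Fin.elim0 ↔ Rings.IsResiduallyFiniteRing M) ∧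
    (∃ φ : Formula Groups.groupSig 0, φ.IsCountable ∧
      ∀ (M : Type u) [Groups.groupSig.Structure M],
        φ.Holds M Fin.elim0 ↔ Groups.IsResiduallyFiniteGroup M) ∧
    (∀ (L : FirstOrder.Language.{0, 0}) (K : ∀ m : ℕ, Set (L.Structure (Fin m))),
      ∃ φ : Formula L 0,
        ((∀ n, Countable (L.Functions n)) → (∀ n, Countable (L.Relations n)) →
          (∀ m, (K m).Countable) → φ.IsCountable) ∧
        ∀ (M : Type u) [L.Structure M], φ.Holds M Fin.elim0 ↔ Residually K M) ∧
    (∀ (L : FirstOrder.Language.{0, 0}) (K : ∀ m : ℕ, Set (L.Structure (Fin m))),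
      ∃ φ : Formula L 0,
        ((∀ n, Countable (L.Functions n)) → (∀ n, Countable (L.Relations n)) →
          (∀ m, (K m).Countable) → φ.IsCountable) ∧
        ∀ (M : Type u) [L.Structure M], φ.Holds M Fin.elim0 ↔ ResiduallyOnto K M) ∧
    (∀ L : FirstOrder.Language.{0, 0}, Finite (Σ n, L.Functions n) →
      Finite (Σ n, L.Relations n) → ∀ K : ∀ m : ℕ, Set (L.Structure (Fin m)),
        (∀ n, Countable (L.Functions n)) ∧ (∀ n, Countable (L.Relations n)) ∧
          ∀ m, (K m).Countable) := by
  refine ⟨?_, ?_, exists_sentence, exists_sentence_onto, countable_of_finite⟩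
  · obtain ⟨φ, h1, h2⟩ := exists_sentence.{u} Rings.ringSig KRing
    obtain ⟨a, b, c⟩ := countable_of_finite Rings.ringSig finite_ringFunc finite_ringRel KRing
    exact ⟨φ, h1 a b c, fun M _ => (h2 M).trans (residually_ring M)⟩
  · obtain ⟨φ, h1, h2⟩ := exists_sentence.{u} Groups.groupSig KGroup
    obtain ⟨a, b, c⟩ := countable_of_finite Groups.groupSig finite_groupFunc finite_groupRel KGroup
    exact ⟨φ, h1 a b c, fun M _ => (h2 M).trans (residually_group M)⟩

end Pool.Agent.Results.MP_f264ea_lc.ResiduallyK
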